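import Pool.Agent.LE.StmtsP
import Pool.Agent.Helper96_LEC.Cnt

/-!
# CN3: the counting lemma for a map with clusters
-/

set_option autoImplicit false

open Finset

noncomputable section

namespace Pool.Agent.LE.CL.H32

open Pool.Agent.Anderson hiding box mem_box card_box
open Pool.Agent.Loc Pool.Agent.LE.H96C

/-- CN3 -/
theorem cn3 (hDmi : DmiStmt) : Cn3Stmt := by
  classical
  intro d F a n R M m t h S c G hd hn hM hS hmh hF2 hF3 hc0 hc hG
  obtain ⟨f, hfdef⟩ : ∃ f : Site d → Fin d → ℝ, ∀ x i, f x i = F x i - t :=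
    ⟨fun x i => F x i - t, fun _ _ => rfl⟩
  have hff : ∀ x y i, f x i - f y i = F x i - F y i := by
    intro x y i
    rw [hfdef, hfdef]
    ring
  have hf2 : ∀ k ∈ box (0 : Site d) n, ∀ i, k i = -(n : ℤ) → f (a + k) i ≤ 0 := by
    intro k hk i hi
    have := hF2 k hk i hi
    rw [hfdef]
    linarith
  have hf3 : ∀ k ∈ box (0 : Site d) n, ∀ i, k i = (n : ℤ) → h - t ≤ f (a + k) i := by
    intro k hk i hi
    have := hF3 k hk i hi
    rw [hfdef]
    linarith
  obtain ⟨w, hwdef⟩ : ∃ w : ℝ, w = 16 * S := ⟨_, rfl⟩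
  have hw : 0 < w := by rw [hwdef]; positivity
  obtain ⟨T, hT⟩ : ∃ T : Finset (Fin d → ℕ), T = Fintype.piFinset fun _ => Finset.Icc 1 m :=
    ⟨_, rfl⟩
  have hcardT : T.card = m ^ d := by
    rw [hT, Fintype.card_piFinset]
    simp
  have hTm : ∀ κ ∈ T, ∀ i, κ i ∈ Finset.Icc 1 m := by
    intro κ hκ
    rw [hT, Fintype.mem_piFinset] at hκ
    exact hκ
  -- the points of the targets
  have hk : ∀ κ ∈ T, ∃ k ∈ box (0 : Site d) n,
      ∀ i, |w * (κ i : ℝ) - f (a + k) i| ≤ c k * S := by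
    intro κ hκ
    have hκ' := hTm κ hκ
    obtain ⟨k, hk, hk2⟩ := hDmi d n (fun k i => f (a + k) i) 0 (h - t)
      (fun i => w * (κ i : ℝ)) hn hf2 hf3 (fun i => by
        have h1 := Finset.mem_Icc.1 (hκ' i)
        have h3 : (κ i : ℝ) ≤ m := by exact_mod_cast h1.2
        constructor
        · positivity
        · have : w * κ i ≤ w * m := mul_le_mul_of_nonneg_left h3 hw.le
          rw [hwdef] at this ⊢
          linarith)
    refine ⟨k, hk, fun i => ?_⟩
    obtain ⟨k', hk', h1, h2⟩ := hk2 i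
    refine h2.trans ?_
    have h4 := hc k hk (a + k') (by
      rw [mem_box]
      have e : sd (a + k) (a + k') = sd k k' := by
        unfold sd
        simp
      rw [e]
      exact h1) i
    rw [hff]
    exact h4
  choose! kk hkk1 hkk2 using hk
  have huniq : ∀ (κ κ' : Fin d → ℕ) (F : Fin d → ℝ), (∀ i, |w * (κ i : ℝ) - F i| < w / 2) →
      (∀ i, |w * (κ' i : ℝ) - F i| < w / 2) → κ = κ' := by
    intro κ κ' F h1 h2
    funext i
    have h3 := abs_lt.1 (h1 i)
    have h4 := abs_lt.1 (h2 i)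
    have h5 : w * ((κ i : ℝ) - κ' i) < w * 1 := by linarith [h3.2, h4.1]
    have h6 : w * ((κ' i : ℝ) - κ i) < w * 1 := by linarith [h3.1, h4.2]
    have h7 : (κ i : ℝ) < κ' i + 1 := by linarith [lt_of_mul_lt_mul_left h5 hw.le]
    have h8 : (κ' i : ℝ) < κ i + 1 := by linarith [lt_of_mul_lt_mul_left h6 hw.le]
    have h9 : κ i < κ' i + 1 := by exact_mod_cast h7
    have h10 : κ' i < κ i + 1 := by exact_mod_cast h8
    omega
  -- small c: everything near the point is near the target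
  have hclose : ∀ κ ∈ T, c (kk κ) ≤ 1 → ∀ y : Site d,
      (∀ i, |F y i - F (a + kk κ) i| ≤ S) → ∀ i, |w * (κ i : ℝ) - f y i| < w / 2 := by
    intro κ hκ h1 y hy i
    have h2 := hkk2 κ hκ i
    have h3 : c (kk κ) * S ≤ 1 * S := mul_le_mul_of_nonneg_right h1 hS.le
    have h4 := hy i
    rw [← hff, abs_sub_comm] at h4
    have h5 := abs_sub_le (w * (κ i : ℝ)) (f (a + kk κ) i) (f y i)
    rw [hwdef] at h2 h5 ⊢
    linarith
  have hinj : ∀ κ ∈ T, ∀ κ' ∈ T, c (kk κ) ≤ 1 → c (kk κ') ≤ 1 → kk κ = kk κ' → κ = κ' := by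
    intro κ hκ κ' hκ' h1 h2 h3
    refine huniq κ κ' (fun i => f (a + kk κ) i) (hclose κ hκ h1 _ fun i => ?_) ?_
    · rw [sub_self, abs_zero]
      exact hS.le
    · refine hclose κ' hκ' h2 _ fun i => ?_
      rw [h3, sub_self, abs_zero]
      exact hS.le
  -- the three classes
  obtain ⟨Ta, hTa⟩ : ∃ Ta, Ta = T.filter fun κ => 1 < c (kk κ) := ⟨_, rfl⟩
  obtain ⟨Tb, hTb⟩ : ∃ Tb, Tb = T.filter fun κ => c (kk κ) ≤ 1 ∧ kk κ ∉ G := ⟨_, rfl⟩
  obtain ⟨Tc, hTc⟩ : ∃ Tc, Tc = T.filter fun κ => c (kk κ) ≤ 1 ∧ kk κ ∈ G := ⟨_, rfl⟩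
  have hsub : T ⊆ Ta ∪ (Tb ∪ Tc) := by
    intro κ hκ
    simp only [hTa, hTb, hTc, Finset.mem_union, Finset.mem_filter]
    by_cases h1 : 1 < c (kk κ)
    · exact Or.inl ⟨hκ, h1⟩
    · rw [not_lt] at h1
      by_cases h2 : kk κ ∈ G
      · exact Or.inr (Or.inr ⟨hκ, h1, h2⟩)
      · exact Or.inr (Or.inl ⟨hκ, h1, h2⟩)
  have hcard : (m : ℝ) ^ d ≤ Ta.card + (Tb.card + Tc.card) := by
    have h1 := (card_le_card hsub).trans ((card_union_le _ _).trans
      (Nat.add_le_add_left (card_union_le _ _) _))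
    rw [hcardT] at h1
    exact_mod_cast h1
  -- (a)
  have hA : (Ta.card : ℝ) ≤
      2 ^ d * ∑ k ∈ (box (0 : Site d) n).filter (fun k => 1 < c k), c k ^ d := by
    have hmap : ∀ κ ∈ Ta, kk κ ∈ (box (0 : Site d) n).filter fun k => 1 < c k := by
      intro κ hκ
      rw [hTa, Finset.mem_filter] at hκ
      exact Finset.mem_filter.2 ⟨hkk1 κ hκ.1, hκ.2⟩
    rw [Finset.card_eq_sum_card_fiberwise hmap, Finset.mul_sum]
    push_cast
    refine Finset.sum_le_sum fun k hk => ?_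
    have hck : 1 < c k := (Finset.mem_filter.1 hk).2
    have h0 : 0 ≤ c k * S := by
      have := hc0 k
      positivity
    have h1 := fiber_card (m := m) (fun i => f (a + k) i) w (c k * S) hw h0
      (Ta.filter fun κ => kk κ = k) (by
        intro κ hκ
        rw [Finset.mem_filter, hTa, Finset.mem_filter] at hκ
        refine ⟨hTm κ hκ.1.1, fun i => ?_⟩
        have h2 := hkk2 κ hκ.1.1 i
        rw [hκ.2] at h2
        exact h2)
    have h2 : 2 * (c k * S) / w + 1 ≤ 2 * c k := by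
      have h4 : 2 * (c k * S) / w = c k / 8 := by
        rw [hwdef]
        field_simp
        ring
      rw [h4]
      linarith
    rw [← mul_pow]
    exact h1.trans (pow_le_pow_left₀ (by positivity) h2 d)
  -- (b)
  have hB : (Tb.card : ℝ) ≤ ((box (0 : Site d) n) \ G).card := by
    have : Tb.card ≤ ((box (0 : Site d) n) \ G).card := by
      refine Finset.card_le_card_of_injOn kk (fun κ hκ => ?_) (fun κ hκ κ' hκ' he => ?_)
      · rw [hTb, Finset.mem_coe, Finset.mem_filter] at hκ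
        rw [Finset.mem_coe, Finset.mem_sdiff]
        exact ⟨hkk1 κ hκ.1, hκ.2.2⟩
      · rw [hTb, Finset.mem_coe, Finset.mem_filter] at hκ hκ'
        exact hinj κ hκ.1 κ' hκ'.1 hκ.2.1 hκ'.2.1 he
    exact_mod_cast this
  -- (c)
  choose! P hP1 hP2 hP3 using hG
  have hC : (Tc.card : ℝ) * M ≤ (2 * ((n : ℝ) + R) + 1) ^ d := by
    have hdisj : ∀ κ ∈ Tc, ∀ κ' ∈ Tc, κ ≠ κ' → Disjoint (P (kk κ)) (P (kk κ')) := by
      intro κ hκ κ' hκ' hne
      rw [hTc, Finset.mem_filter] at hκ hκ'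
      rw [Finset.disjoint_left]
      intro y hy hy'
      exact hne (huniq κ κ' (fun i => f y i)
        (hclose κ hκ.1 hκ.2.1 y (hP3 _ hκ.2.2 y hy))
        (hclose κ' hκ'.1 hκ'.2.1 y (hP3 _ hκ'.2.2 y hy')))
    have h1 : Tc.card * M ≤ (Tc.biUnion fun κ => P (kk κ)).card := by
      rw [Finset.card_biUnion hdisj, Finset.card_eq_sum_ones, Finset.sum_mul]
      refine Finset.sum_le_sum fun κ hκ => ?_
      rw [one_mul]
      rw [hTc, Finset.mem_filter] at hκ
      exact hP1 _ hκ.2.2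
    have h2 : (Tc.biUnion fun κ => P (kk κ)) ⊆ box a (n + R) := by
      intro y hy
      obtain ⟨κ, hκ, hy⟩ := Finset.mem_biUnion.1 hy
      rw [hTc, Finset.mem_filter] at hκ
      have h3 := hP2 _ hκ.2.2 hy
      have h4 := hkk1 κ hκ.1
      rw [mem_box] at h3 h4 ⊢
      have h5 := sd_triangle a (a + kk κ) y
      have h6 : sd a (a + kk κ) = sd 0 (kk κ) := by
        unfold sd
        simp
      omega
    have h3 := Finset.card_le_card h2
    rw [card_box] at h3
    have h4 := h1.trans h3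
    exact_mod_cast h4
  have hM0 : (0 : ℝ) < M := by exact_mod_cast hM
  have hC' : (Tc.card : ℝ) ≤ (2 * ((n : ℝ) + R) + 1) ^ d / M := by
    rw [le_div_iff₀ hM0]
    exact hC
  calc (m : ℝ) ^ d ≤ Ta.card + (Tb.card + Tc.card) := hcard
    _ ≤ 2 ^ d * ∑ k ∈ (box (0 : Site d) n).filter (fun k => 1 < c k), c k ^ d +
        (((box (0 : Site d) n) \ G).card + (2 * ((n : ℝ) + R) + 1) ^ d / M) := by
        gcongr
    _ = _ := by ring

end Pool.Agent.LE.CL.H32
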